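import Mathlib
import Pool.Agent.Helper43_LSA.All

/-!
# Upper bounds for local search allocation on regular graphs of any degree

There are an absolute constant `C` and a function `η` tending to `0` such that, for every regular
graph `G` with `n` vertices, with probability at least `1 - η n` the maximum load after `n` balls
is at most `C R₁`, all vertices are eventually covered, and the cover time is at most `C R₂ n`.
-/

namespace Pool.Agent.Results.MP_5f46d0_pr.RegularUpper

open Helper43.LSA

theorem result :
    ∃ (C : ℝ) (η : ℕ → ℝ), Filter.Tendsto η Filter.atTop (nhds 0) ∧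
      ∀ (V : Type) [Fintype V] [Nonempty V] (G : SimpleGraph V) (D : ℕ),
        (∀ v, (nbr G v).card = D) →
        ∀ (Ω : Type) [MeasurableSpace Ω] (μ : MeasureTheory.Measure Ω)
          [MeasureTheory.IsProbabilityMeasure μ] (X : ℕ → Ω → V → ℕ), IsLocalSearch G μ X →
          μ {ω | ¬ ((Xmax X (Fintype.card V) ω : ℝ) ≤ C * R₁ G ∧ Covers X ω ∧
              (Tcov X ω : ℝ) ≤ C * R₂ G * Fintype.card V)} ≤
            ENNReal.ofReal (η (Fintype.card V)) := by
  obtain ⟨c, C, η, _, hη, _, h2, _⟩ := Helper43.LSA.all
  exact ⟨C, η, hη, fun V _ _ G D hG Ω _ μ _ X hX => h2 V G D hG Ω μ X hX⟩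

end Pool.Agent.Results.MP_5f46d0_pr.RegularUpper
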