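import Mathlib
import Pool.Agent.Helper43_LSA.All

/-!
# Maximum load and cover time of local search allocation on vertex-transitive graphs

The answer to Q1 is yes: there are absolute constants `c`, `C` and a function `η` tending to `0`
such that, for every vertex-transitive graph `G` with `n` vertices, with probability at least
`1 - η n` the maximum load after `n` balls is between `c R₁` and `C R₁`, all vertices are
eventually covered, and the cover time is between `c R₂ n` and `C R₂ n`.
-/

namespace Pool.Agent.Results.MP_5f46d0_pr.Theta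

open Helper43.LSA

theorem result :
    ∃ (c C : ℝ) (η : ℕ → ℝ), 0 < c ∧ Filter.Tendsto η Filter.atTop (nhds 0) ∧
      ∀ (V : Type) [Fintype V] [Nonempty V] (G : SimpleGraph V), VertexTransitive G →
        (∃ (Ω : Type) (_ : MeasurableSpace Ω) (μ : MeasureTheory.Measure Ω)
          (X : ℕ → Ω → V → ℕ), MeasureTheory.IsProbabilityMeasure μ ∧ IsLocalSearch G μ X) ∧
        ∀ (Ω : Type) [MeasurableSpace Ω] (μ : MeasureTheory.Measure Ω)
          [MeasureTheory.IsProbabilityMeasure μ] (X : ℕ → Ω → V → ℕ), IsLocalSearch G μ X →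
          μ {ω | ¬ (c * R₁ G ≤ (Xmax X (Fintype.card V) ω : ℝ) ∧
              (Xmax X (Fintype.card V) ω : ℝ) ≤ C * R₁ G ∧ Covers X ω ∧
              c * R₂ G * Fintype.card V ≤ (Tcov X ω : ℝ) ∧
              (Tcov X ω : ℝ) ≤ C * R₂ G * Fintype.card V)} ≤
            ENNReal.ofReal (η (Fintype.card V)) := by
  obtain ⟨c, C, η, hc, hη, h1, _, h3⟩ := Helper43.LSA.all
  exact ⟨c, C, η, hc, hη, fun V _ _ G hG =>
    ⟨h3 V G, fun Ω _ μ _ X hX => h1 V G hG Ω μ X hX⟩⟩

end Pool.Agent.Results.MP_5f46d0_pr.Theta
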